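import Mathlib

namespace Pool.Agent.H.MP_e9f532_co
open Finset

/-- The family of sets that occur as the intersection of two different members. -/
def inter {n : ℕ} (𝒜 : Finset (Finset (Fin n))) : Finset (Finset (Fin n)) :=
  𝒜.offDiag.image (fun p => p.1 ∩ p.2)

open Classical in
/-- The maximum number of distinct pairwise intersections of an antichain in `2^[n]`. -/
noncomputable def f (n : ℕ) : ℕ :=
  ((univ : Finset (Finset (Finset (Fin n)))).filter
    (fun 𝒜 => ∀ A ∈ 𝒜, ∀ B ∈ 𝒜, ¬ A ⊂ B)).sup (fun 𝒜 => (inter 𝒜).card)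

end Pool.Agent.H.MP_e9f532_co
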