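import Pool.Agent.H.MP_e9f532_co.Defs

namespace Pool.Agent.H.MP_e9f532_co
open Finset

lemma pow_aux (n : ℕ) : 2 * n ^ (n + 1) ≤ (n + 1) ^ (n + 1) := by
  rcases Nat.eq_zero_or_pos n with rfl | hn
  · simp
  have h := one_add_mul_le_pow (a := (1 / n : ℝ)) (by
    have : (0 : ℝ) ≤ 1 / n := by positivity
    linarith) n
  have hn' : (0 : ℝ) < n := by exact_mod_cast hn
  rw [mul_one_div_cancel hn'.ne', show (1 : ℝ) + 1 / n = (n + 1) / n by field_simp, div_pow,
    le_div_iff₀ (by positivity)] at h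
  have h2 : 2 * n ^ n ≤ (n + 1) ^ n := by
    have : ((2 * n ^ n : ℕ) : ℝ) ≤ (((n + 1) ^ n : ℕ) : ℝ) := by push_cast; linarith
    exact_mod_cast this
  calc 2 * n ^ (n + 1) = 2 * n ^ n * n := by ring
    _ ≤ (n + 1) ^ n * (n + 1) := Nat.mul_le_mul h2 (Nat.le_succ n)
    _ = (n + 1) ^ (n + 1) := by ring

lemma cube_le (r : ℕ) : r ^ 3 ≤ 10 * 2 ^ r := by
  induction r with
  | zero => simp
  | succ r ih =>
    rcases Nat.lt_or_ge r 4 with h | h
    · interval_cases r <;> norm_num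
    · have : (r + 1) ^ 3 ≤ 2 * r ^ 3 := by nlinarith [Nat.mul_le_mul h h, Nat.mul_le_mul (Nat.mul_le_mul h h) (le_refl r)]
      rw [pow_succ 2]; omega

lemma numeric (n L : ℕ) (hL : n + 1 ≤ 2 ^ L) :
    n.choose (2 * (L + 5)) * (n + 1) * n ^ (Nat.centralBinom (L + 5))
      < (n + 1) ^ (Nat.centralBinom (L + 5)) := by
  set r := L + 5 with hr
  set M := Nat.centralBinom r with hM
  set j := L * (2 * r + 1) + 1 with hj
  have h1 : 4 ^ r < r * M := Nat.four_pow_lt_mul_centralBinom r (by omega)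
  have h2 : (n + 1) * j ≤ M := by
    by_contra c
    have c' : M ≤ 2 ^ L * j := le_trans (not_le.1 c).le (Nat.mul_le_mul_right _ hL)
    have e : 4 ^ r = 2 ^ L * (32 * 2 ^ r) := by
      rw [show (4 : ℕ) = 2 * 2 by norm_num, mul_pow]
      nth_rewrite 1 [hr]
      rw [pow_add]; ring
    have h3 : r * M ≤ 2 ^ L * (r * j) := by
      calc r * M ≤ r * (2 ^ L * j) := Nat.mul_le_mul_left _ c'
        _ = 2 ^ L * (r * j) := by ring
    have h4 : r * j ≤ 3 * r ^ 3 := by
      have : j ≤ 3 * r ^ 2 := by rw [hj, hr]; nlinarith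
      calc r * j ≤ r * (3 * r ^ 2) := Nat.mul_le_mul_left _ this
        _ = 3 * r ^ 3 := by ring
    have h5 := cube_le r
    have h6 : 2 ^ L * (r * j) ≤ 2 ^ L * (32 * 2 ^ r) := Nat.mul_le_mul_left _ (by omega)
    omega
  obtain ⟨d, hd⟩ := Nat.exists_eq_add_of_le h2
  have h3 : 2 ^ j * n ^ M ≤ (n + 1) ^ M := by
    rw [hd, pow_add n, pow_add (n + 1), pow_mul n, pow_mul (n + 1), ← mul_assoc, ← mul_pow]
    exact Nat.mul_le_mul (Nat.pow_le_pow_left (pow_aux n) j) (Nat.pow_le_pow_left (Nat.le_succ n) d)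
  have h4 : n.choose (2 * r) * (n + 1) < 2 ^ j := by
    calc n.choose (2 * r) * (n + 1) ≤ (2 ^ L) ^ (2 * r) * 2 ^ L :=
          Nat.mul_le_mul ((Nat.choose_le_pow n _).trans (Nat.pow_le_pow_left (by omega) _)) hL
      _ = 2 ^ (L * (2 * r + 1)) := by rw [← pow_mul, ← pow_add]; congr 1
      _ < 2 ^ j := Nat.pow_lt_pow_right (by norm_num) (by omega)
  rcases Nat.eq_zero_or_pos n with rfl | hn
  · have : 2 * r = (2 * r - 1) + 1 := by omega
    rw [this]; simp
  · exact lt_of_lt_of_le (Nat.mul_lt_mul_of_pos_right h4 (by positivity)) h3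

lemma exists_col (n r : ℕ)
    (h : n.choose (2 * r) * (n + 1) * n ^ (Nat.centralBinom r) < (n + 1) ^ (Nat.centralBinom r)) :
    ∃ c : Finset (Fin n) → Fin (n + 1), ∀ W : Finset (Fin n), W.card = 2 * r →
      ∀ k, ∃ R ⊆ W, R.card = r ∧ c R = k := by
  classical
  by_contra hc
  push Not at hc
  set M := Nat.centralBinom r with hM
  set T := Fintype.card (Finset (Fin n)) with hT
  let bad : Finset (Fin n) × Fin (n + 1) → Finset (Finset (Fin n) → Fin (n + 1)) := fun p =>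
    Fintype.piFinset (fun R => if R ∈ powersetCard r p.1 then univ.erase p.2 else univ)
  have hsub : (univ : Finset (Finset (Fin n) → Fin (n + 1))) ⊆
      (powersetCard (2 * r) univ ×ˢ univ).biUnion bad := by
    intro c _
    obtain ⟨W, hW, k, hk⟩ := hc c
    refine mem_biUnion.2 ⟨(W, k), by simp [hW], Fintype.mem_piFinset.2 fun R => ?_⟩
    split_ifs with a
    · obtain ⟨a1, a2⟩ := mem_powersetCard.1 a
      exact mem_erase.2 ⟨hk R a1 a2, mem_univ _⟩
    · exact mem_univ _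
  have hb : ∀ p ∈ (powersetCard (2 * r) (univ : Finset (Fin n)) ×ˢ (univ : Finset (Fin (n + 1)))),
      (bad p).card * (n + 1) ^ M = n ^ M * (n + 1) ^ T := by
    intro p hp
    have hW : p.1.card = 2 * r := (mem_powersetCard.1 (mem_product.1 hp).1).2
    have hc : (powersetCard r p.1).card = M := by
      rw [card_powersetCard, hW, hM, Nat.centralBinom_eq_two_mul_choose]
    simp only [bad, Fintype.card_piFinset, apply_ite Finset.card, card_erase_of_mem (mem_univ _),
      card_univ, Fintype.card_fin, Nat.add_sub_cancel]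
    rw [prod_ite, prod_const, prod_const, filter_mem_eq_inter, univ_inter, hc, mul_assoc, ← pow_add]
    congr 2
    have := card_filter_add_card_filter_not (s := (univ : Finset (Finset (Fin n))))
      (fun R => R ∈ powersetCard r p.1)
    rw [filter_mem_eq_inter, univ_inter, hc, card_univ] at this
    omega
  have h1 := (card_le_card hsub).trans card_biUnion_le
  have h2 := Nat.mul_le_mul_right ((n + 1) ^ M) h1
  rw [sum_mul, sum_congr rfl hb, sum_const, card_product, card_powersetCard, card_univ, card_univ,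
    card_univ, Fintype.card_fun, Fintype.card_fin, Fintype.card_fin, smul_eq_mul, ← hT] at h2
  have h3 := Nat.mul_lt_mul_of_pos_right h (show 0 < (n + 1) ^ T by positivity)
  have e1 : n.choose (2 * r) * (n + 1) * n ^ M * (n + 1) ^ T
    = n.choose (2 * r) * (n + 1) * (n ^ M * (n + 1) ^ T) := by ring
  rw [e1, mul_comm ((n + 1) ^ M)] at h3
  omega

variable {n : ℕ}

def P (r : ℕ) (c : Finset (Fin n) → Fin (n + 1)) (X A : Finset (Fin n)) : Prop :=
  (Xᶜ \ A).card = r ∧ (c (Xᶜ \ A)).val = (A ∩ X).card ∧ 2 * r ≤ (X \ A).card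

lemma P_eq {r : ℕ} {c : Finset (Fin n) → Fin (n + 1)} {X A B : Finset (Fin n)} (hA : P r c X A)
    (hB : P r c X B) (h : A ⊆ B) : A = B := by
  have h1 : Xᶜ \ B = Xᶜ \ A :=
    eq_of_subset_of_card_le (sdiff_subset_sdiff subset_rfl h) (by rw [hA.1, hB.1])
  have h2 : A ∩ X = B ∩ X :=
    eq_of_subset_of_card_le (inter_subset_inter h subset_rfl) (by rw [← hA.2.1, ← hB.2.1, h1])
  ext i
  have a1 := congrArg (i ∈ ·) h1
  have a2 := congrArg (i ∈ ·) h2
  simp only [mem_sdiff, mem_compl, mem_inter, eq_iff_iff] at a1 a2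
  tauto

lemma P_not {r : ℕ} (hr : 0 < r) {c : Finset (Fin n) → Fin (n + 1)} {X A B : Finset (Fin n)}
    (hA : P r c X A) (hB : P r c Xᶜ B) : ¬ A ⊆ B := fun h => by
  have := card_le_card (sdiff_subset_sdiff (s := Xᶜ) subset_rfl h)
  have a := hA.1
  have b := hB.2.2
  omega

lemma P_ex {r : ℕ} {c : Finset (Fin n) → Fin (n + 1)}
    (hc : ∀ W : Finset (Fin n), W.card = 2 * r → ∀ k, ∃ R ⊆ W, R.card = r ∧ c R = k)
    (X B : Finset (Fin n)) (h1 : 2 * r ≤ (X \ B).card) (h2 : 2 * r ≤ (Xᶜ \ B).card) :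
    ∃ A, P r c X A ∧ B ⊆ A ∧ A ∩ X ⊆ B := by
  obtain ⟨W, hW, hW'⟩ := exists_subset_card_eq h2
  obtain ⟨R, hR, r1, r2⟩ := hc W hW' ⟨(B ∩ X).card, by
    have := card_le_univ (B ∩ X)
    rw [Fintype.card_fin] at this; omega⟩
  have hR' : ∀ i ∈ R, i ∉ X ∧ i ∉ B := fun i hi => by
    have := hW (hR hi)
    simpa using this
  have e1 : Xᶜ \ ((B ∩ X) ∪ (Xᶜ \ R)) = R := by
    ext i; have := hR' i
    simp only [mem_sdiff, mem_compl, mem_union, mem_inter]; tauto
  have e2 : ((B ∩ X) ∪ (Xᶜ \ R)) ∩ X = B ∩ X := by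
    ext i
    simp only [mem_sdiff, mem_compl, mem_union, mem_inter]; tauto
  have e3 : X \ ((B ∩ X) ∪ (Xᶜ \ R)) = X \ B := by
    ext i
    simp only [mem_sdiff, mem_compl, mem_union, mem_inter]; tauto
  refine ⟨(B ∩ X) ∪ (Xᶜ \ R), ⟨by rw [e1, r1], by rw [e1, e2, r2], by rw [e3]; exact h1⟩, ?_, ?_⟩
  · intro i hi
    have := hR' i
    simp only [mem_sdiff, mem_compl, mem_union, mem_inter]; tauto
  · rw [e2]; exact inter_subset_left

lemma sum_choose_le (n m : ℕ) : ∑ j ∈ range (m + 1), n.choose j ≤ (n + 1) ^ m := by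
  induction m with
  | zero => simp
  | succ m ih =>
    rw [sum_range_succ, pow_succ]
    have h1 : n.choose (m + 1) ≤ (n + 1) ^ m * n := by
      refine (Nat.choose_le_pow n _).trans ?_
      rw [pow_succ]
      exact Nat.mul_le_mul_right _ (Nat.pow_le_pow_left (Nat.le_succ n) m)
    nlinarith

lemma small_card (X : Finset (Fin n)) (m : ℕ) :
    (univ.filter (fun B : Finset (Fin n) => (X \ B).card ≤ m)).card ≤ (n + 1) ^ m * 2 ^ Xᶜ.card := by
  have h1 : (univ.filter (fun B : Finset (Fin n) => (X \ B).card ≤ m)).card ≤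
      (((range (m + 1)).biUnion (fun j => powersetCard j (univ : Finset (Fin n)))) ×ˢ
        powerset Xᶜ).card := by
    refine card_le_card_of_injOn (fun B => (X \ B, B ∩ Xᶜ)) (fun B hB => ?_) (fun B _ C _ h => ?_)
    · have : (X \ B).card ≤ m := by simpa using hB
      simp only [coe_product, Set.mem_prod, mem_coe, mem_biUnion, mem_range, mem_powersetCard,
        mem_powerset]
      exact ⟨⟨_, by omega, subset_univ _, rfl⟩, inter_subset_right⟩
    · obtain ⟨h1, h2⟩ := Prod.mk.inj h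
      ext i
      have a1 := congrArg (i ∈ ·) h1
      have a2 := congrArg (i ∈ ·) h2
      simp only [mem_sdiff, mem_compl, mem_inter, eq_iff_iff] at a1 a2
      tauto
  rw [card_product, card_powerset] at h1
  refine h1.trans (Nat.mul_le_mul_right _ (card_biUnion_le.trans ?_))
  simp only [card_powersetCard, card_univ, Fintype.card_fin]
  exact sum_choose_le n m

lemma lower (n : ℕ) :
    2 ^ n ≤ f n + 2 * 2 ^ ((n + 1) / 2) * (n + 1) ^ (2 * Nat.log 2 n + 11) := by
  classical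
  set L := Nat.log 2 n + 1 with hL
  have hL' : n + 1 ≤ 2 ^ L := Nat.lt_pow_succ_log_self (by norm_num) n
  obtain ⟨c, hc⟩ := exists_col n (L + 5) (numeric n L hL')
  set r := L + 5 with hr
  have r0 : 0 < r := by omega
  obtain ⟨X, -, hX⟩ := exists_subset_card_eq (s := (univ : Finset (Fin n))) (n := n / 2)
    (by rw [card_univ, Fintype.card_fin]; omega)
  have hX' : Xᶜ.card = (n + 1) / 2 := by rw [card_compl, hX, Fintype.card_fin]; omega
  set 𝒜 := univ.filter (fun A => P r c X A ∨ P r c Xᶜ A) with h𝒜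
  have hanti : ∀ A ∈ 𝒜, ∀ B ∈ 𝒜, ¬ A ⊂ B := by
    intro A hA B hB h
    rcases (mem_filter.1 hA).2 with a | a <;> rcases (mem_filter.1 hB).2 with b | b
    · exact h.ne (P_eq a b h.subset)
    · exact P_not r0 a b h.subset
    · exact P_not r0 a (by rwa [compl_compl]) h.subset
    · exact h.ne (P_eq a b h.subset)
  have hf : (inter 𝒜).card ≤ f n :=
    le_sup (f := fun 𝒜 => (inter 𝒜).card) (mem_filter.2 ⟨mem_univ _, hanti⟩)
  have hsub : (univ : Finset (Finset (Fin n))) ⊆ inter 𝒜 ∪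
      (univ.filter (fun B : Finset (Fin n) => (X \ B).card ≤ 2 * r - 1) ∪
       univ.filter (fun B : Finset (Fin n) => (Xᶜ \ B).card ≤ 2 * r - 1)) := by
    intro B _
    simp only [mem_union, mem_filter, mem_univ, true_and]
    by_cases a : (X \ B).card ≤ 2 * r - 1
    · exact Or.inr (Or.inl a)
    by_cases b : (Xᶜ \ B).card ≤ 2 * r - 1
    · exact Or.inr (Or.inr b)
    left
    obtain ⟨A, a1, a2, a3⟩ := P_ex hc X B (by omega) (by omega)
    obtain ⟨A', b1, b2, b3⟩ := P_ex hc Xᶜ B (by omega) (by rw [compl_compl]; omega)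
    refine mem_image.2 ⟨(A, A'), mem_offDiag.2 ⟨mem_filter.2 ⟨mem_univ _, Or.inl a1⟩,
      mem_filter.2 ⟨mem_univ _, Or.inr b1⟩, fun h => P_not r0 a1 b1 (le_of_eq h)⟩, ?_⟩
    refine Subset.antisymm (fun i hi => ?_) (subset_inter a2 b2)
    obtain ⟨i1, i2⟩ := mem_inter.1 hi
    by_cases d : i ∈ X
    · exact a3 (mem_inter.2 ⟨i1, d⟩)
    · exact b3 (mem_inter.2 ⟨i2, mem_compl.2 d⟩)
  have h1 := (card_le_card hsub).trans (card_union_le _ _)
  have h2 := card_union_le (univ.filter (fun B : Finset (Fin n) => (X \ B).card ≤ 2 * r - 1))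
    (univ.filter (fun B : Finset (Fin n) => (Xᶜ \ B).card ≤ 2 * r - 1))
  have h3 := small_card X (2 * r - 1)
  have h4 := small_card Xᶜ (2 * r - 1)
  rw [compl_compl, hX] at h4
  rw [hX'] at h3
  rw [card_univ, Fintype.card_finset, Fintype.card_fin] at h1
  have h5 : 2 ^ (n / 2) ≤ 2 ^ ((n + 1) / 2) := Nat.pow_le_pow_right (by norm_num) (by omega)
  have h6 := Nat.mul_le_mul_left ((n + 1) ^ (2 * r - 1)) h5
  have e : 2 * Nat.log 2 n + 11 = 2 * r - 1 := by omega
  rw [e]
  nlinarith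

lemma upper (n : ℕ) : f n ≤ 2 ^ n ∧ 2 ^ n ≤ (2 ^ n - f n) ^ 2 := by
  classical
  obtain ⟨𝒜, h𝒜, he⟩ := exists_mem_eq_sup ((univ : Finset (Finset (Finset (Fin n)))).filter
    (fun 𝒜 => ∀ A ∈ 𝒜, ∀ B ∈ 𝒜, ¬ A ⊂ B)) ⟨∅, by simp⟩ (fun 𝒜 => (inter 𝒜).card)
  have he' : f n = (inter 𝒜).card := by
    rw [← he]; unfold f; congr
  have hanti := (mem_filter.1 h𝒜).2
  have hd : Disjoint (inter 𝒜) 𝒜 := by
    rw [disjoint_left]
    intro C hC hC'
    obtain ⟨⟨A, B⟩, hp, rfl⟩ := mem_image.1 hC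
    obtain ⟨a, b, ab⟩ := mem_offDiag.1 hp
    have e1 : A ∩ B = A := by
      by_contra c
      exact hanti _ hC' A a ⟨inter_subset_left, fun h => c (Subset.antisymm inter_subset_left h)⟩
    have e2 : A ∩ B = B := by
      by_contra c
      exact hanti _ hC' B b ⟨inter_subset_right, fun h => c (Subset.antisymm inter_subset_right h)⟩
    exact ab (e1.symm.trans e2)
  have h1 := card_le_univ (inter 𝒜 ∪ 𝒜)
  rw [card_union_of_disjoint hd, Fintype.card_finset, Fintype.card_fin] at h1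
  have h2 : (inter 𝒜).card ≤ 𝒜.card * 𝒜.card - 𝒜.card := by
    rw [← offDiag_card]; exact card_image_le
  rw [he']
  refine ⟨by omega, ?_⟩
  obtain ⟨d, hd'⟩ := Nat.exists_eq_add_of_le h1
  have h0 : 0 < 2 ^ n := by positivity
  have e : 2 ^ n - (inter 𝒜).card = 𝒜.card + d := by omega
  rw [e, hd']
  have h3 : 𝒜.card ≤ 𝒜.card * 𝒜.card := Nat.le_mul_self _
  have h4 : d ≤ d * d := Nat.le_mul_self _
  have h5 : (inter 𝒜).card + 𝒜.card ≤ 𝒜.card * 𝒜.card := by omega
  nlinarith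

end Pool.Agent.H.MP_e9f532_co
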